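import Mathlib

set_option autoImplicit false

namespace Pool.Agent.H.MP_f13ad7_nt

open Polynomial Module

theorem fr_map (W : Submodule ℚ ℚ[X]) {G : ℚ[X]} (hG : G ≠ 0) :
    finrank ℚ (W.map (LinearMap.mulLeft ℚ G)) = finrank ℚ W :=
  (Submodule.equivMapOfInjective _ (fun _ _ h => mul_left_cancel₀ hG h) W).finrank_eq.symm

theorem fr_deg (N : ℕ) : finrank ℚ (degreeLT ℚ N) = N := by
  rw [finrank_eq_card_basis (degreeLT.basis ℚ N)]; simp

instance fd_deg (N : ℕ) : FiniteDimensional ℚ (degreeLT ℚ N) :=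
  Module.Finite.of_basis (degreeLT.basis ℚ N)

theorem mem_deg {N : ℕ} {P : ℚ[X]} : P ∈ degreeLT ℚ (N + 1) ↔ P.natDegree ≤ N := by
  rw [degreeLT_succ_eq_degreeLE, mem_degreeLE, natDegree_le_iff_degree_le]

theorem stable (W : Submodule ℚ ℚ[X]) {N : ℕ} (hN : W ≤ degreeLT ℚ (N + 1)) (h0 : W ≠ ⊥)
    (h : finrank ℚ (W ⊔ W.map (LinearMap.mulLeft ℚ X) : Submodule ℚ ℚ[X]) ≤ finrank ℚ W + 1) :
    ∃ G : ℚ[X], ∃ k : ℕ, G ≠ 0 ∧ finrank ℚ W = k + 1 ∧ G.natDegree + k ≤ N ∧
      ∀ P ∈ W, G ∣ P ∧ P.natDegree ≤ G.natDegree + k := by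
  classical
  haveI : FiniteDimensional ℚ W := Submodule.finiteDimensional_of_le hN
  obtain ⟨P0, hP0, P00⟩ := (Submodule.ne_bot_iff W).1 h0
  let D : Set ℕ := {d | ∃ P ∈ W, P ≠ 0 ∧ P.natDegree = d}
  have Dn : D.Nonempty := ⟨_, P0, hP0, P00, rfl⟩
  have Db : BddAbove D := ⟨N, by rintro _ ⟨P, hP, -, rfl⟩; exact mem_deg.1 (hN hP)⟩
  obtain ⟨Q, hQ, Q0, hQM⟩ := Nat.sSup_mem Dn Db
  obtain ⟨G, hG, G0, hGm⟩ := Nat.sInf_mem Dn
  have hmax : ∀ P ∈ W, P.natDegree ≤ Q.natDegree := by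
    intro P hP
    by_cases h0 : P = 0
    · simp [h0]
    · rw [hQM]; exact le_csSup Db ⟨P, hP, h0, rfl⟩
  have hmin : ∀ P ∈ W, P ≠ 0 → G.natDegree ≤ P.natDegree := by
    intro P hP h0
    rw [hGm]; exact Nat.sInf_le ⟨P, hP, h0, rfl⟩
  have e1 := Submodule.finrank_sup_add_finrank_inf_eq (W.map (LinearMap.mulLeft ℚ X)) W
  rw [Submodule.map_inf_eq_map_inf_comap, fr_map _ X_ne_zero, fr_map _ X_ne_zero, sup_comm] at e1
  have e2 : finrank ℚ (W ⊓ degreeLT ℚ Q.natDegree : Submodule ℚ ℚ[X]) < finrank ℚ W := by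
    apply Submodule.finrank_lt_finrank_of_lt
    refine lt_of_le_of_ne inf_le_left fun he => ?_
    have : Q ∈ W ⊓ degreeLT ℚ Q.natDegree := by rw [he]; exact hQ
    have := mem_degreeLT.1 this.2
    rw [degree_eq_natDegree Q0] at this
    exact lt_irrefl _ this
  have e3 : W ⊓ W.comap (LinearMap.mulLeft ℚ X) = W ⊓ degreeLT ℚ Q.natDegree := by
    apply Submodule.eq_of_le_of_finrank_le _ (by omega)
    rintro P ⟨h1, h2⟩
    refine ⟨h1, mem_degreeLT.2 ?_⟩
    by_cases h0 : P = 0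
    · rw [h0, degree_zero]; exact WithBot.bot_lt_coe _
    · have := hmax (X * P) h2
      rw [natDegree_X_mul h0] at this
      rw [degree_eq_natDegree h0]; exact_mod_cast this
  have clo : ∀ i, i + G.natDegree ≤ Q.natDegree → X ^ i * G ∈ W := by
    intro i
    induction i with
    | zero => intro _; simpa using hG
    | succ i ih =>
      intro hi
      have : X ^ i * G ∈ W ⊓ degreeLT ℚ Q.natDegree := by
        refine ⟨ih (by omega), mem_degreeLT.2 ?_⟩
        rw [degree_eq_natDegree (mul_ne_zero (pow_ne_zero _ X_ne_zero) G0), natDegree_X_pow_mul _ G0]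
        exact_mod_cast (by omega : G.natDegree + i < Q.natDegree)
      rw [← e3] at this
      have h2 : X * (X ^ i * G) ∈ W := this.2
      rwa [← mul_assoc, ← pow_succ'] at h2
  obtain ⟨k, hk⟩ := Nat.exists_eq_add_of_le (hmax G hG)
  have sub : ∀ R : ℚ[X], R.natDegree ≤ k → G * R ∈ W := by
    intro R hR
    rw [R.as_sum_range' (k + 1) (by omega), Finset.mul_sum]
    refine Submodule.sum_mem _ fun i hi => ?_
    rw [← smul_X_eq_monomial, mul_smul_comm, mul_comm]
    exact W.smul_mem _ (clo i (by have := Finset.mem_range.1 hi; omega))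
  have dv : ∀ P ∈ W, G ∣ P := by
    intro P hP
    have h1 : (P / G).natDegree ≤ k := by
      have := hmax P hP
      rw [div_def]
      refine (natDegree_C_mul_le _ _).trans ?_
      rw [natDegree_divByMonic _ (monic_mul_leadingCoeff_inv G0), natDegree_mul_leadingCoeff_inv _ G0]
      omega
    have h2 : P % G ∈ W := by
      have := W.sub_mem hP (sub _ h1)
      rwa [← EuclideanDomain.mod_eq_sub_mul_div] at this
    rw [← EuclideanDomain.mod_eq_zero]
    by_contra h3
    have h4 := hmin _ h2 h3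
    have h5 := natDegree_lt_natDegree h3 (degree_mod_lt P G0)
    omega
  refine ⟨G, k, G0, ?_, by rw [← hk]; exact mem_deg.1 (hN hQ), fun P hP => ⟨dv P hP, hk ▸ hmax P hP⟩⟩
  have : W = (degreeLT ℚ (k + 1)).map (LinearMap.mulLeft ℚ G) := by
    apply le_antisymm
    · intro P hP
      obtain ⟨R, rfl⟩ := dv P hP
      refine ⟨R, mem_deg.2 ?_, rfl⟩
      by_cases h0 : R = 0
      · simp [h0]
      · have := hmax _ hP
        rw [natDegree_mul G0 h0] at this
        omega
    · rintro _ ⟨R, hR, rfl⟩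
      exact sub R (mem_deg.1 hR)
  rw [this, fr_map _ G0, fr_deg]

def gens (S : Set ℤ[X]) (s : ℕ) : Set ℚ[X] :=
  {f | ∃ i ≤ s, ∃ P ∈ S, f = (X ^ i * P).map (Int.castRingHom ℚ)}

theorem gens_le {S : Set ℤ[X]} {n : ℕ} (hS : ∀ P ∈ S, P.natDegree ≤ n) (s : ℕ) :
    Submodule.span ℚ (gens S s) ≤ degreeLT ℚ (n + s + 1) := by
  rw [Submodule.span_le]
  rintro _ ⟨i, hi, P, hP, rfl⟩
  refine mem_deg.2 (natDegree_map_le.trans (natDegree_mul_le.trans ?_))
  have := hS P hP
  rw [natDegree_X_pow]; omega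

theorem genres (S : Set ℤ[X]) {n r : ℕ} (hS : ∀ P ∈ S, P.natDegree ≤ n) (hr : r ≤ n)
    (hm : n + 1 ≤ finrank ℚ (Submodule.span ℚ (gens S 0)) + r) :
    ∃ (k : ℕ) (G : ℤ[X]) (R : Fin (k + 1) → ℤ[X]), G ≠ 0 ∧ G.natDegree ≤ r ∧ n ≤ k + r ∧ k ≤ n + r ∧
      (∀ l, (R l).natDegree ≤ k ∧ ∃ i ≤ r, ∃ P ∈ S, G * R l = X ^ i * P) ∧
      (Matrix.of fun l j : Fin (k + 1) => (R l).coeff j).det ≠ 0 := by
  classical
  have fd : ∀ s, FiniteDimensional ℚ (Submodule.span ℚ (gens S s)) := fun s =>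
    Submodule.finiteDimensional_of_le (gens_le hS s)
  set m := finrank ℚ (Submodule.span ℚ (gens S 0))
  obtain ⟨s, hs, h1, h2⟩ : ∃ s ≤ r, m + s ≤ finrank ℚ (Submodule.span ℚ (gens S s)) ∧
      finrank ℚ (Submodule.span ℚ (gens S s) ⊔ (Submodule.span ℚ (gens S s)).map
        (LinearMap.mulLeft ℚ X) : Submodule ℚ ℚ[X]) ≤ finrank ℚ (Submodule.span ℚ (gens S s)) + 1 := by
    by_contra hc
    push Not at hc
    have : ∀ s ≤ r + 1, m + 2 * s ≤ finrank ℚ (Submodule.span ℚ (gens S s)) := by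
      intro s
      induction s with
      | zero => intro _; exact le_rfl
      | succ s ih =>
        intro hs
        have i1 := ih (by omega)
        have i2 := hc s (by omega) (by omega)
        have i3 : Submodule.span ℚ (gens S s) ⊔ (Submodule.span ℚ (gens S s)).map
            (LinearMap.mulLeft ℚ X) ≤ Submodule.span ℚ (gens S (s + 1)) := by
          refine sup_le (Submodule.span_mono ?_) ?_
          · rintro _ ⟨i, hi, P, hP, rfl⟩
            exact ⟨i, by omega, P, hP, rfl⟩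
          · rw [Submodule.map_span]
            apply Submodule.span_mono
            rintro _ ⟨_, ⟨i, hi, P, hP, rfl⟩, rfl⟩
            refine ⟨i + 1, by omega, P, hP, ?_⟩
            simp [pow_succ', mul_assoc]
        have := fd (s + 1)
        have i4 := Submodule.finrank_mono i3
        omega
    have i1 := this (r + 1) le_rfl
    have i2 := Submodule.finrank_mono (gens_le hS (r + 1))
    rw [fr_deg] at i2
    omega
  obtain ⟨G, k, G0, hk, hg, hW⟩ := stable _ (gens_le hS s) (by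
    intro h0; rw [h0, finrank_bot] at h1; omega) h2
  have := fd s
  obtain ⟨f, f1, -, f3⟩ := Submodule.exists_fun_fin_finrank_span_eq ℚ (gens S s)
  obtain ⟨c, hc, hG1⟩ := IsLocalization.integerNormalization_spec (nonZeroDivisors ℤ) G
  set G1 := IsLocalization.integerNormalization (nonZeroDivisors ℤ) G
  have G10 : G1 ≠ 0 := mt IsFractionRing.integerNormalization_eq_zero_iff.1 G0
  have c0 : (c : ℚ) ≠ 0 := by exact_mod_cast nonZeroDivisors.ne_zero hc
  have hG2 : G1.map (Int.castRingHom ℚ) = C (c : ℚ) * G := by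
    rw [← smul_eq_C_mul, Int.cast_smul_eq_zsmul]; exact hG1
  have dG : G1.primPart.natDegree = G.natDegree := by
    rw [natDegree_primPart, ← natDegree_map_eq_of_injective (f := Int.castRingHom ℚ) Int.cast_injective,
      hG2, natDegree_C_mul c0]
  have dv : G1.primPart.map (Int.castRingHom ℚ) ∣ G := by
    have := Polynomial.map_dvd (Int.castRingHom ℚ) G1.primPart_dvd
    rw [hG2] at this
    exact (IsUnit.dvd_mul_left (isUnit_C.2 (IsUnit.mk0 _ c0))).1 this
  have ex : ∀ l : Fin (k + 1), ∃ R : ℤ[X], f (l.cast hk.symm) = (G1.primPart * R).map (Int.castRingHom ℚ) ∧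
      R.natDegree ≤ k ∧ ∃ i ≤ r, ∃ P ∈ S, G1.primPart * R = X ^ i * P := by
    intro l
    obtain ⟨i, hi, P, hP, he⟩ := f1 (l.cast hk.symm)
    obtain ⟨w1, w2⟩ := hW _ (Submodule.subset_span (f1 (l.cast hk.symm)))
    rw [he] at w1 w2
    obtain ⟨R, hR⟩ := (IsPrimitive.Int.dvd_iff_map_cast_dvd_map_cast _ _ G1.isPrimitive_primPart).2
      (dv.trans w1)
    refine ⟨R, by rw [he, hR], ?_, i, by omega, P, hP, hR.symm⟩
    by_cases h0 : R = 0
    · simp [h0]
    · rw [natDegree_map_eq_of_injective Int.cast_injective, hR,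
        natDegree_mul G1.primPart_ne_zero h0] at w2
      omega
  choose R r1 r2 r3 using ex
  refine ⟨k, G1.primPart, R, G1.primPart_ne_zero, by omega, by omega, by omega,
    fun l => ⟨r2 l, r3 l⟩, fun hd => ?_⟩
  obtain ⟨v, v0, hv⟩ := Matrix.exists_vecMul_eq_zero_iff.2 hd
  have z1 : ∑ l, v l • R l = 0 := by
    ext j
    rw [finset_sum_coeff, coeff_zero]
    by_cases hj : j < k + 1
    · have := congrFun hv ⟨j, hj⟩
      simpa [Matrix.vecMul, dotProduct] using this
    · refine Finset.sum_eq_zero fun l _ => ?_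
      rw [coeff_smul, coeff_eq_zero_of_natDegree_lt (by have := r2 l; omega), smul_zero]
  have li := f3.comp (fun l : Fin (k + 1) => l.cast hk.symm) (Fin.cast_injective _)
  apply v0
  funext l
  have := Fintype.linearIndependent_iff.1 li (fun l => (v l : ℚ)) (by
    have z2 := congrArg (fun P => (G1.primPart * P).map (Int.castRingHom ℚ)) z1
    simp only [Finset.mul_sum, Polynomial.map_sum, mul_zero, Polynomial.map_zero] at z2
    rw [← z2]
    refine Finset.sum_congr rfl fun l _ => ?_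
    rw [Function.comp_apply, r1, mul_smul_comm, Polynomial.map_smul]
    simp) l
  exact_mod_cast this

/-- many integer polynomials in a space of small dimension: two are congruent -/
theorem cong {ι : Type} (S : Set ℤ[X]) {n q : ℕ} (hq : 0 < q) (hS : ∀ P ∈ S, P.natDegree ≤ n)
    (F : Finset ι) (P : ι → ℤ[X]) (hP : ∀ u ∈ F, P u ∈ S)
    (hF : q ^ finrank ℚ (Submodule.span ℚ (gens S 0)) < F.card) :
    ∃ u ∈ F, ∃ v ∈ F, u ≠ v ∧ ∃ R : ℤ[X], P u - P v = (q : ℤ) • R := by
  classical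
  haveI : NeZero q := ⟨hq.ne'⟩
  have fd : FiniteDimensional ℚ (Submodule.span ℚ (gens S 0)) :=
    Submodule.finiteDimensional_of_le (gens_le hS 0)
  let φ : ℤ[X] →ₗ[ℤ] ℚ[X] := (mapRingHom (Int.castRingHom ℚ)).toAddMonoidHom.toIntLinearMap
  let T : Set ℚ[X] := (fun u => φ (P u)) '' F
  have Tf : T.Finite := F.finite_toSet.image _
  let Λ := Submodule.span ℤ T
  haveI : Module.Finite ℤ Λ := Module.Finite.span_of_finite ℤ Tf
  have e1 : finrank ℚ (Submodule.span ℚ T) = finrank ℤ Λ := Submodule.finrank_span_eq_finrank_span ℤ ℚ T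
  have e2 : finrank ℚ (Submodule.span ℚ T) ≤ finrank ℚ (Submodule.span ℚ (gens S 0)) := by
    apply Submodule.finrank_mono (Submodule.span_mono _)
    rintro _ ⟨u, hu, rfl⟩
    exact ⟨0, le_rfl, P u, hP u hu, by simp [φ]⟩
  let b := Module.finBasis ℤ Λ
  let x : ι → Λ := fun u => if h : u ∈ F then ⟨φ (P u), Submodule.subset_span ⟨u, h, rfl⟩⟩ else 0
  obtain ⟨u, hu, v, hv, hne, he⟩ := Finset.exists_ne_map_eq_of_card_lt_of_maps_to (s := F)
    (t := (Finset.univ : Finset (Fin (finrank ℤ Λ) → ZMod q)))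
    (lt_of_le_of_lt (by simpa using Nat.pow_le_pow_right hq (e1 ▸ e2)) hF)
    (f := fun u i => ((b.repr (x u) i : ℤ) : ZMod q)) (fun _ _ => by simp)
  have hd : ∀ i, ∃ z : ℤ, b.repr (x u - x v) i = q * z := by
    intro i
    have := (ZMod.intCast_eq_intCast_iff_dvd_sub _ _ _).1 (congrFun he i).symm
    rw [map_sub, Finsupp.sub_apply]; exact this
  choose z hz using hd
  have e3 : x u - x v = (q : ℤ) • ∑ i, z i • b i := by
    rw [← b.sum_repr (x u - x v), Finset.smul_sum]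
    exact Finset.sum_congr rfl fun i _ => by rw [hz, mul_smul]
  have hΛ : Λ ≤ LinearMap.range φ := Submodule.span_le.2 (by rintro _ ⟨u, -, rfl⟩; exact ⟨_, rfl⟩)
  obtain ⟨R, hR⟩ := hΛ (∑ i, z i • b i).2
  refine ⟨u, hu, v, hv, hne, R, Polynomial.map_injective (Int.castRingHom ℚ) Int.cast_injective ?_⟩
  have e4 := congrArg Subtype.val e3
  simp only [x, dif_pos hu, dif_pos hv, Submodule.coe_sub, Submodule.coe_smul, ← hR] at e4
  rw [← map_sub, ← map_smul] at e4
  exact e4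

end Pool.Agent.H.MP_f13ad7_nt
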