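import Pool.Agent.H.MP_f13ad7_nt.A
import Pool.Agent.H.MP_8ce656_nt.B

set_option autoImplicit false

namespace Pool.Agent.H.MP_f13ad7_nt

open Polynomial Module
open Pool.Agent.H.MP_294a04_nt

def Bd (P : ℤ[X]) (x : ℝ) : Prop := ∀ i, |(P.coeff i : ℝ)| ≤ x

noncomputable def Mm (P : ℤ[X]) : ℝ := (P.map (Int.castRingHom ℂ)).mahlerMeasure

structure Big (ξ : ℝ) (D : ℕ) (t : ℝ) : Prop where
  h4 : 4 ≤ t
  hM : (D + 1) * (|ξ| + 1) ^ D ≤ t
  h2 : 2 ^ D ≤ t
  hf : ((D + 1).factorial : ℝ) ≤ t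

theorem Mm_mul (P Q : ℤ[X]) : Mm (P * Q) = Mm P * Mm Q := by
  simp only [Mm, Polynomial.map_mul, mahlerMeasure_mul]

theorem one_le_Mm {P : ℤ[X]} (h : P ≠ 0) : 1 ≤ Mm P := one_le_mahlerMeasure_of_ne_zero h

theorem Mm_nonneg (P : ℤ[X]) : 0 ≤ Mm P := mahlerMeasure_nonneg _

theorem Mm_le {P : ℤ[X]} {D : ℕ} {x : ℝ} (hD : P.natDegree ≤ D) (h : Bd P x) : Mm P ≤ (D + 1) * x := by
  refine (mahlerMeasure_le_sum_norm_coeff _).trans ?_
  rw [sum_over_range' _ (by simp) (D + 1) (Nat.lt_succ_of_le (natDegree_map_le.trans hD))]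
  refine (Finset.sum_le_card_nsmul _ _ x fun i _ => ?_).trans (by simp)
  simpa using h i

theorem Bd_Mm {P : ℤ[X]} {D : ℕ} (hD : P.natDegree ≤ D) : Bd P (2 ^ D * Mm P) := by
  intro i
  have h1 := norm_coeff_le_choose_mul_mahlerMeasure i (P.map (Int.castRingHom ℂ))
  have h2 : (P.map (Int.castRingHom ℂ)).natDegree.choose i ≤ 2 ^ D :=
    (Nat.choose_le_two_pow _ _).trans (Nat.pow_le_pow_right (by norm_num) (natDegree_map_le.trans hD))
  have h3 : (((P.map (Int.castRingHom ℂ)).natDegree.choose i : ℕ) : ℝ) ≤ 2 ^ D := by exact_mod_cast h2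
  have h4 : ‖(P.map (Int.castRingHom ℂ)).coeff i‖ = |(P.coeff i : ℝ)| := by simp
  rw [h4] at h1
  exact h1.trans (mul_le_mul_of_nonneg_right h3 (Mm_nonneg P))

theorem Bd.mono {P : ℤ[X]} {x y : ℝ} (h : Bd P x) (hxy : x ≤ y) : Bd P y := fun i => (h i).trans hxy

theorem Bd.shift {P : ℤ[X]} {x : ℝ} (h : Bd P x) (i : ℕ) : Bd (X ^ i * P) x := by
  intro j
  rw [coeff_X_pow_mul']
  split_ifs
  · exact h _
  · simpa using (abs_nonneg _).trans (h 0)

theorem ev_le {P : ℤ[X]} {D : ℕ} {x y M : ℝ} (hD : P.natDegree ≤ D) (h : Bd P x) (hM : 1 ≤ M)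
    (hy : |y| ≤ M) : |aeval y P| ≤ (D + 1) * M ^ D * x := by
  rw [aeval_eq_sum_range' (Nat.lt_succ_of_le hD)]
  refine (Finset.abs_sum_le_sum_abs _ _).trans ?_
  refine (Finset.sum_le_card_nsmul _ _ (M ^ D * x) fun i hi => ?_).trans (by simp [mul_assoc])
  rw [zsmul_eq_mul, abs_mul, abs_pow, mul_comm]
  refine mul_le_mul ((pow_le_pow_left₀ (abs_nonneg _) hy _).trans (pow_le_pow_right₀ hM ?_)) (h i)
    (abs_nonneg _) (by positivity)
  have := Finset.mem_range.1 hi; omega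

section
variable {ξ t : ℝ} {D : ℕ} (B : Big ξ D t)
include B

theorem Big.hD : (D : ℝ) + 1 ≤ t :=
  le_trans (le_mul_of_one_le_right (by positivity) (one_le_pow₀ (by linarith [abs_nonneg ξ]))) B.hM

theorem Big.up {c : ℝ} (hc : c ≤ t) (β : ℤ) : c * t ^ β ≤ t ^ (β + 1) := by
  have := B.h4
  rw [zpow_add_one₀ (by linarith), mul_comm]
  exact mul_le_mul_of_nonneg_left hc (zpow_nonneg (by linarith) _)

theorem Big.ev {P : ℤ[X]} {β : ℤ} {y : ℝ} (hD : P.natDegree ≤ D) (h : Bd P (t ^ β))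
    (hy : |y| ≤ |ξ| + 1) : |aeval y P| ≤ t ^ (β + 1) :=
  (ev_le hD h (by linarith [abs_nonneg ξ]) hy).trans (B.up B.hM β)

theorem Big.der {P : ℤ[X]} {β : ℤ} (hD : P.natDegree ≤ D) (h : Bd P (t ^ β)) :
    Bd (derivative P) (t ^ (β + 1)) := by
  intro i
  by_cases hi : i + 1 ≤ D
  · rw [coeff_derivative]
    push_cast
    rw [abs_mul, mul_comm]
    have h1 : |(i : ℝ) + 1| ≤ t := by
      have : (i : ℝ) + 1 ≤ D := by exact_mod_cast hi
      have := B.hD
      rw [abs_of_nonneg (by positivity)]; linarith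
    exact (mul_le_mul_of_nonneg_left (h _) (abs_nonneg _)).trans (B.up h1 β)
  · rw [coeff_derivative, coeff_eq_zero_of_natDegree_lt (by omega)]
    simpa using zpow_nonneg (by linarith [B.h4]) _

theorem Big.mm {P : ℤ[X]} {β : ℤ} (hD : P.natDegree ≤ D) (h : Bd P (t ^ β)) : Mm P ≤ t ^ (β + 1) :=
  (Mm_le hD h).trans (B.up B.hD β)

theorem Big.bd {P : ℤ[X]} {β : ℤ} (hD : P.natDegree ≤ D) (h : Mm P ≤ t ^ β) : Bd P (t ^ (β + 1)) :=
  (Bd_Mm hD).mono ((mul_le_mul_of_nonneg_left h (by positivity)).trans (B.up B.h2 β))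

omit B in
theorem ddeg {P : ℤ[X]} (hD : P.natDegree ≤ D) : (derivative P).natDegree ≤ D :=
  ((natDegree_derivative_le P).trans (Nat.sub_le _ _)).trans hD

/-- small value and large derivative give a real root -/
theorem Big.root {P : ℤ[X]} {K a b : ℤ} (hD : P.natDegree ≤ D) (h : Bd P (t ^ K))
    (hv : |aeval ξ P| ≤ t ^ (-a)) (hd : t ^ (-b) ≤ |aeval ξ (derivative P)|)
    (h1 : K + 5 + 2 * b ≤ a) (h2 : b + 1 ≤ a) :
    ∃ α : ℝ, aeval α P = 0 ∧ |ξ - α| ≤ t ^ (b - a + 1) := by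
  have ht := B.h4
  obtain ⟨δ, hδ⟩ : ∃ δ, δ = t ^ (b - a + 1) := ⟨_, rfl⟩
  have δ0 : 0 < δ := hδ ▸ zpow_pos (by linarith) _
  have δ1 : δ ≤ 1 := hδ ▸ zpow_le_one_of_nonpos₀ (by linarith) (by omega)
  have hx : ξ ∈ Set.Icc (ξ - δ) (ξ + δ) := ⟨by linarith, by linarith⟩
  have near : ∀ y ∈ Set.Icc (ξ - δ) (ξ + δ), |y - ξ| ≤ δ := fun y hy =>
    abs_le.2 ⟨by linarith [hy.1], by linarith [hy.2]⟩
  set d := aeval ξ (derivative P)
  have l1 : ∀ y ∈ Set.Icc (ξ - δ) (ξ + δ), ‖aeval y (derivative P) - d‖ ≤ |d| / 2 := by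
    intro y hy
    have := (convex_Icc (ξ - δ) (ξ + δ)).norm_image_sub_le_of_norm_hasDerivWithin_le (C := t ^ (K + 1 + 1 + 1))
      (fun x _ => ((derivative P).hasDerivAt_aeval x).hasDerivWithinAt) (fun x hx => by
        refine B.ev (ddeg (ddeg hD)) (B.der (ddeg hD) (B.der hD h)) ?_
        have := near x hx
        have := abs_sub_abs_le_abs_sub x ξ
        linarith) hx hy
    refine this.trans ?_
    have k1 := pm ht (x := t ^ (K + 1 + 1 + 1)) (a := K + 3) (y := y - ξ)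
      (by rw [abs_of_pos (zpow_pos (by linarith) _)]; exact pmono ht (by omega)) (hδ ▸ near y hy)
    rw [abs_mul, abs_of_pos (zpow_pos (by linarith) _)] at k1
    have k2 := (four ht (K + 3 + (b - a + 1))).trans (pmono ht (show _ ≤ -b by omega))
    have : 0 < t ^ (K + 3 + (b - a + 1)) := zpow_pos (by linarith) _
    rw [Real.norm_eq_abs]; linarith
  have l2 : ∀ y ∈ Set.Icc (ξ - δ) (ξ + δ),
      |aeval y P - d * y - (aeval ξ P - d * ξ)| ≤ |d| / 2 * |y - ξ| := fun y hy =>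
    (convex_Icc (ξ - δ) (ξ + δ)).norm_image_sub_le_of_norm_hasDerivWithin_le (C := |d| / 2)
      (f := fun y => aeval y P - d * y) (f' := fun y => aeval y (derivative P) - d)
      (fun x _ => ((P.hasDerivAt_aeval x).sub (by simpa using (hasDerivAt_id x).const_mul d)).hasDerivWithinAt)
      l1 hx hy
  have u1 := abs_le.1 (l2 (ξ + δ) ⟨by linarith, le_rfl⟩)
  have u2 := abs_le.1 (l2 (ξ - δ) ⟨le_rfl, by linarith⟩)
  rw [add_sub_cancel_left, abs_of_pos δ0] at u1
  rw [sub_sub_cancel_left, abs_neg, abs_of_pos δ0] at u2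
  have k3 : 4 * t ^ (-a) ≤ |d| * δ := by
    refine (four ht _).trans (le_trans (le_of_eq ?_) (mul_le_mul_of_nonneg_right hd δ0.le))
    rw [hδ, ← zpow_add₀ (by linarith)]; congr 1; ring
  have v1 := abs_le.1 hv
  have : 0 < t ^ (-a) := zpow_pos (by linarith) _
  obtain ⟨α, h3, h4⟩ := intermediate_value_uIcc (a := ξ - δ) (b := ξ + δ) (f := fun y => aeval y P)
    P.continuous_aeval.continuousOn (show (0 : ℝ) ∈ _ by
      rw [Set.mem_uIcc]
      rcases le_total 0 d with h0 | h0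
      · rw [abs_of_nonneg h0] at u1 u2 k3
        left; constructor <;> nlinarith
      · rw [abs_of_nonpos h0] at u1 u2 k3
        right; constructor <;> nlinarith)
  rw [Set.uIcc_of_le (by linarith)] at h3
  exact ⟨α, h4, by rw [abs_sub_comm, ← hδ]; exact near α h3⟩

end

theorem detb (ξ : ℝ) {k : ℕ} (R : Fin (k + 2) → ℤ[X]) (hR : ∀ l, (R l).natDegree ≤ k + 1)
    (hd : (Matrix.of fun l j : Fin (k + 2) => (R l).coeff j).det ≠ 0) {x y z : ℝ}
    (hx : ∀ l, |aeval ξ (R l)| ≤ x) (hy : ∀ l, |aeval ξ (derivative (R l))| ≤ y) (hz : ∀ l, Bd (R l) z) :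
    1 ≤ ((k + 2).factorial : ℝ) * (x * y * z ^ k) := by
  let T : Matrix (Fin (k + 2)) (Fin (k + 2)) ℝ := Matrix.of fun i j =>
    if (j : ℕ) = 0 then ξ ^ (i : ℕ) else if (j : ℕ) = 1 then (i : ℕ) * ξ ^ ((i : ℕ) - 1)
    else if i = j then 1 else 0
  have hT : T.det = 1 := by
    rw [Matrix.det_of_lowerTriangular]
    · refine Finset.prod_eq_one fun i _ => ?_
      simp only [T, Matrix.of_apply]
      split_ifs with h1 h2 <;> simp_all
    · intro i j hij
      have : (i : ℕ) < j := hij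
      simp only [T, Matrix.of_apply]
      split_ifs with h1 h2 h3
      · omega
      · have : (i : ℕ) = 0 := by omega
        simp [this]
      · omega
      · rfl
  set A := (Matrix.of fun l j : Fin (k + 2) => (R l).coeff j)
  have h1 : 1 ≤ |(A.map (Int.castRingHom ℝ) * T).det| := by
    rw [Matrix.det_mul, hT, mul_one, ← RingHom.mapMatrix_apply, ← RingHom.map_det]
    exact one_le_abs hd
  let c : Fin (k + 2) → ℝ := fun j => if (j : ℕ) = 0 then x else if (j : ℕ) = 1 then y else z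
  have h2 : ∀ l j, |(A.map (Int.castRingHom ℝ) * T) l j| ≤ c j := by
    intro l j
    simp only [Matrix.mul_apply, Matrix.map_apply, A, T, c, Matrix.of_apply, eq_intCast]
    split_ifs with h1 h2
    · convert hx l using 2
      rw [aeval_eq_sum_range' (Nat.lt_succ_of_le (hR l)), Finset.sum_range]
      simp
    · convert hy l using 2
      conv_rhs => rw [(R l).as_sum_range' (k + 2) (Nat.lt_succ_of_le (hR l)), Finset.sum_range]
      simp [derivative_monomial, aeval_monomial, mul_assoc]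
    · simpa using hz l j
  refine h1.trans ?_
  rw [Matrix.det_apply']
  refine (Finset.abs_sum_le_sum_abs _ _).trans ?_
  refine (Finset.sum_le_card_nsmul _ _ (∏ j, c j) fun σ _ => ?_).trans (le_of_eq ?_)
  · rw [abs_mul, Finset.abs_prod]
    have : |((Equiv.Perm.sign σ : ℤ) : ℝ)| = 1 := by
      rcases Int.units_eq_one_or (Equiv.Perm.sign σ) with h | h <;> simp [h]
    rw [this, one_mul]
    exact Finset.prod_le_prod (fun _ _ => abs_nonneg _) fun j _ => h2 _ _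
  · rw [Finset.card_univ, Fintype.card_perm, Fintype.card_fin, nsmul_eq_mul, Fin.prod_univ_succ,
      Fin.prod_univ_succ]
    simp [c, mul_assoc]

end Pool.Agent.H.MP_f13ad7_nt
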