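import Pool.Agent.H.MP_f13ad7_nt.B

set_option autoImplicit false

namespace Pool.Agent.H.MP_f13ad7_nt

open Polynomial Module
open Pool.Agent.H.MP_294a04_nt

def Low (ξ t : ℝ) (n w : ℕ) : Prop :=
  ∀ P : ℤ[X], P ≠ 0 → P.natDegree ≤ n → ∀ β : ℤ, Bd P (t ^ β) → t ^ (-(β * w) - 1) ≤ |aeval ξ P|

def C1 (ξ t : ℝ) (n : ℕ) (K a : ℤ) : Set ℤ[X] :=
  {P | P.natDegree ≤ n ∧ Bd P (t ^ K) ∧ |aeval ξ P| ≤ t ^ (-a)}

theorem Bd.sub {t : ℝ} (ht : 4 ≤ t) {P Q : ℤ[X]} {a b : ℤ} (c : ℤ) (h1 : Bd P (t ^ a))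
    (h2 : Bd Q (t ^ b)) (h3 : a + 1 ≤ c) (h4 : b + 1 ≤ c) : Bd (P - Q) (t ^ c) := by
  intro i
  rw [coeff_sub, Int.cast_sub]
  exact ps ht c (h1 i) (h2 i) h3 h4

theorem ceil_le {t : ℝ} (ht : 4 ≤ t) (a : ℕ) : (⌈t ^ a⌉₊ : ℝ) ≤ t ^ (a + 1) := by
  have h1 : 1 ≤ t ^ a := one_le_pow₀ (by linarith)
  have := Nat.ceil_lt_add_one (zero_le_one.trans h1)
  rw [pow_succ]; nlinarith

theorem dimbig {ξ t : ℝ} {D n p r w K a s : ℕ} (B : Big ξ D t) (hD : n ≤ D) (hn : 1 ≤ n)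
    (hp : n = p + r) (L : Low ξ t n w) (h4 : a + 1 + (s + 1) * p ≤ K * n)
    (h5 : ((K : ℤ) + 5 - s) * w + 2 < a + s) :
    n + 1 ≤ finrank ℚ (Submodule.span ℚ (gens (C1 ξ t n (K + 4) a) 0)) + r := by
  classical
  by_contra hc
  have ht := B.h4
  have t1 : 1 ≤ t := by linarith
  have pos : ∀ z : ℤ, 0 < t ^ z := fun z => zpow_pos (by linarith) _
  set m := finrank ℚ (Submodule.span ℚ (gens (C1 ξ t n (K + 4) a) 0))
  let U : Finset (Fin n → ℤ) := Fintype.piFinset fun _ => Finset.Icc 0 (⌊t ^ K⌋₊ : ℤ)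
  let g : (Fin n → ℤ) → ℝ := fun u => aeval ξ (X ^ 1 * ofFn n u)
  let Q : (Fin n → ℤ) → ℤ[X] := fun u => X ^ 1 * ofFn n u - C ⌊g u⌋
  have d0 : 0 < ⌈t ^ a⌉₊ := Nat.ceil_pos.2 (by positivity)
  have d1 : (0 : ℝ) < ⌈t ^ a⌉₊ := by exact_mod_cast d0
  have q0 : 0 < ⌈t ^ s⌉₊ := Nat.ceil_pos.2 (by positivity)
  obtain ⟨y, -, hy⟩ := Finset.exists_lt_card_fiber_of_mul_lt_card_of_maps_to (s := U)
    (t := Finset.range ⌈t ^ a⌉₊) (f := fun u => ⌊Int.fract (g u) * ⌈t ^ a⌉₊⌋₊) (n := ⌈t ^ s⌉₊ ^ m)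
    (by
      intro u _
      rw [Finset.mem_range, Nat.floor_lt (mul_nonneg (Int.fract_nonneg _) d1.le)]
      have := Int.fract_lt_one (g u)
      nlinarith) (by
      have e : U.card = (⌊t ^ K⌋₊ + 1) ^ n := by simp [U]
      rw [e, Finset.card_range]
      have k1 : (⌈t ^ a⌉₊ : ℝ) * ⌈t ^ s⌉₊ ^ m ≤ t ^ (a + 1) * (t ^ (s + 1)) ^ m := by
        have := ceil_le ht a
        have := ceil_le ht s
        gcongr
      rw [← pow_mul, ← pow_add] at k1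
      have k2 : t ^ (a + 1 + (s + 1) * m) ≤ (t ^ K) ^ n := by
        rw [← pow_mul]
        refine pow_le_pow_right₀ t1 (le_trans ?_ h4)
        have : m ≤ p := by omega
        gcongr
      have k3 : (t ^ K) ^ n < ((⌊t ^ K⌋₊ : ℝ) + 1) ^ n :=
        pow_lt_pow_left₀ (Nat.lt_floor_add_one _) (by positivity) (by omega)
      exact_mod_cast (k1.trans k2).trans_lt k3)
  obtain ⟨u0, hu0⟩ := Finset.card_pos.1 ((Nat.zero_le _).trans_lt hy)
  have dg : ∀ u, (X ^ 1 * ofFn n u : ℤ[X]).natDegree ≤ n := fun u => by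
    have := ofFn_natDegree_lt hn u
    refine natDegree_mul_le.trans ?_
    rw [natDegree_X_pow]; omega
  have dQ : ∀ u, (Q u).natDegree ≤ n := fun u => by
    simp only [Q]; rw [natDegree_sub_C]; exact dg u
  have bQ : ∀ u ∈ U, Bd (Q u) (t ^ ((K : ℤ) + 3)) := by
    intro u hu
    have b1 : Bd (X ^ 1 * ofFn n u) (t ^ (K : ℤ)) := by
      refine Bd.shift (fun i => ?_) 1
      by_cases hi : i < n
      · rw [ofFn_coeff_eq_val_of_lt _ hi]
        obtain ⟨k1, k2⟩ := Finset.mem_Icc.1 (Fintype.mem_piFinset.1 hu ⟨i, hi⟩)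
        have k3 : ((u ⟨i, hi⟩ : ℤ) : ℝ) ≤ ⌊t ^ K⌋₊ := by exact_mod_cast k2
        rw [abs_of_nonneg (by exact_mod_cast k1), zpow_natCast]
        exact k3.trans (Nat.floor_le (by positivity))
      · rw [ofFn_coeff_eq_zero_of_ge _ (by omega)]; simpa using (pos K).le
    have b2 := B.ev ((dg u).trans hD) b1 (y := ξ) (by linarith)
    refine Bd.sub ht _ b1 (b := K + 2) (fun i => ?_) (by omega) (by omega)
    rw [coeff_C]
    split_ifs
    · rw [← Int.self_sub_fract]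
      refine ps ht _ b2 (b := 0) ?_ (by omega) (by omega)
      rw [Int.abs_fract, zpow_zero]; exact (Int.fract_lt_one _).le
    · simpa using (pos _).le
  have vQ : ∀ u, aeval ξ (Q u) = Int.fract (g u) := fun u => by
    simp only [Q, map_sub, eq_intCast, map_intCast, Int.fract, g]
  have mem : ∀ u ∈ U.filter (fun u => ⌊Int.fract (g u) * ⌈t ^ a⌉₊⌋₊ = y),
      Q u - Q u0 ∈ C1 ξ t n (K + 4) a := by
    intro u hu
    obtain ⟨k1, k2⟩ := Finset.mem_filter.1 hu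
    obtain ⟨k3, k4⟩ := Finset.mem_filter.1 hu0
    refine ⟨(natDegree_sub_le _ _).trans (max_le (dQ _) (dQ _)),
      Bd.sub ht _ (bQ _ k1) (bQ _ k3) (by omega) (by omega), ?_⟩
    rw [map_sub, vQ, vQ, zpow_neg, zpow_natCast, ← one_div, le_div_iff₀ (by positivity)]
    have f1 := Nat.floor_le (mul_nonneg (Int.fract_nonneg (g u)) d1.le)
    have f2 := Nat.lt_floor_add_one (Int.fract (g u) * ⌈t ^ a⌉₊)
    have f3 := Nat.floor_le (mul_nonneg (Int.fract_nonneg (g u0)) d1.le)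
    have f4 := Nat.lt_floor_add_one (Int.fract (g u0) * ⌈t ^ a⌉₊)
    rw [k2] at f1 f2
    rw [k4] at f3 f4
    refine (mul_le_mul_of_nonneg_left (Nat.le_ceil _) (abs_nonneg _)).trans ?_
    rw [← abs_of_pos d1, ← abs_mul, abs_le]; constructor <;> linarith
  obtain ⟨u, hu, v, hv, hne, R, hR⟩ := cong (C1 ξ t n (K + 4) a) q0 (fun P hP => hP.1) _
    (fun u => Q u - Q u0) mem hy
  obtain ⟨m1, m2, m3⟩ := mem u hu
  obtain ⟨m4, m5, m6⟩ := mem v hv
  have q1 : t ^ (s : ℤ) ≤ |((⌈t ^ s⌉₊ : ℤ) : ℝ)| := by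
    rw [zpow_natCast]; exact (Nat.le_ceil _).trans (by simp)
  have q2 : ((⌈t ^ s⌉₊ : ℤ) : ℝ) ≠ 0 := abs_pos.1 ((pos _).trans_le q1)
  have R0 : R ≠ 0 := by
    rintro rfl
    apply hne
    funext i
    have := congrArg (fun P => P.coeff (i + 1)) hR
    simp only [Q, pow_one, coeff_sub, coeff_X_mul, coeff_C_succ, ofFn_coeff_eq_val_of_lt _ i.2,
      smul_zero, coeff_zero] at this
    simp only [Fin.eta] at this
    omega
  have k1 := Bd.sub ht (K + 5) m2 m5 (by omega) (by omega)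
  have k2 := ps ht (-a + 1) m3 m6 (by omega) (by omega)
  have k3 := (natDegree_sub_le _ _).trans (max_le m1 m4)
  rw [← map_sub, hR, map_zsmul, zsmul_eq_mul] at k2
  rw [hR] at k1 k3
  rw [smul_eq_C_mul, natDegree_C_mul (by exact_mod_cast q0.ne')] at k3
  have k4 := pdiv ht k2 q1
  rw [mul_div_cancel_left₀ _ q2] at k4
  have k5 := L R R0 k3 (K + 5 - s) (fun i => by
    have := k1 i
    rw [coeff_smul, smul_eq_mul, Int.cast_mul] at this
    have := pdiv ht this q1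
    rwa [mul_div_cancel_left₀ _ q2] at this)
  have := pcmp ht (k5.trans k4)
  omega

theorem bigder {ξ t : ℝ} {n r w K a b : ℕ} (B : Big ξ (2 * n) t) (L : Low ξ t r w)
    (hm : n + 1 ≤ finrank ℚ (Submodule.span ℚ (gens (C1 ξ t n K a) 0)) + r)
    (h1 : 3 * w + r + 2 ≤ n) (h2 : b + 1 ≤ a)
    (h3 : 11 + 6 * w + (K + 2) * (n + r) < a + b + (K + 2)) :
    ∃ P ∈ C1 ξ t n K a, t ^ (-(b : ℤ)) ≤ |aeval ξ (derivative P)| := by
  by_contra hc
  push Not at hc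
  have ht := B.h4
  have t0 : t ≠ 0 := by linarith
  have pos : ∀ z : ℤ, 0 < t ^ z := fun z => zpow_pos (by linarith) _
  have xi : |ξ| ≤ |ξ| + 1 := by linarith
  obtain ⟨k, G, R, G0, dG, k1, k2, hR, hd⟩ := genres _ (fun P hP => hP.1) (by omega) hm
  obtain ⟨k, rfl⟩ : ∃ j, k = j + 1 := ⟨k - 1, by omega⟩
  obtain ⟨β, b1, b2⟩ := pex ht (one_le_Mm G0)
  have dG' : G.natDegree ≤ 2 * n := by omega
  have bG := B.bd dG' b2.le
  have vG := L G G0 dG _ bG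
  obtain ⟨γ, hγ⟩ : ∃ γ : ℤ, γ = (β + 1 + 1) * w + 1 := ⟨_, rfl⟩
  have γ0 : 0 ≤ γ := by rw [hγ]; positivity
  rw [show -(((β : ℤ) + 1 + 1) * w) - 1 = -γ by rw [hγ]; ring] at vG
  have G1 : aeval ξ G ≠ 0 := abs_pos.1 ((pos _).trans_le vG)
  have vG' := B.ev (ddeg dG') (B.der dG' bG) xi
  have hx : ∀ l, |aeval ξ (R l)| ≤ t ^ (1 - a + γ) ∧
      |aeval ξ (derivative (R l))| ≤ t ^ (β + 2 * γ + 6 - b) ∧ Bd (R l) (t ^ ((K : ℤ) + 2 - β)) := by
    intro l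
    obtain ⟨dR, i, hi, P, hP, he⟩ := hR l
    have hP' := (hc P hP).le
    obtain ⟨p1, p2, p3⟩ := hP
    have x0 : Bd (X ^ i) (t ^ (0 : ℤ)) := fun j => by
      rw [coeff_X_pow]; split_ifs <;> simp
    have xd : (X ^ i : ℤ[X]).natDegree ≤ 2 * n := by rw [natDegree_X_pow]; omega
    have x1 := B.ev xd x0 xi
    have x2 := B.ev (ddeg xd) (B.der xd x0) xi
    have e1 := congrArg (aeval ξ) he
    have e2 := congrArg (fun P => aeval ξ (derivative P)) he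
    simp only [derivative_mul, map_add, map_mul] at e1 e2
    have r1 := pdiv ht (pm ht x1 p3) vG
    rw [← e1, mul_div_cancel_left₀ _ G1] at r1
    have r1' : |aeval ξ (R l)| ≤ t ^ (1 - a + γ) := r1.trans (pmono ht (by omega))
    have r2 := pdiv ht (ps ht (β + γ + 6 - b) (pa ht (2 - b) (pm ht x2 p3) (pm ht x1 hP') (by omega) (by omega))
      (pm ht vG' r1') (by omega) (by omega)) vG
    rw [← e2, add_sub_cancel_left, mul_div_cancel_left₀ _ G1] at r2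
    refine ⟨r1', r2.trans (pmono ht (by omega)), ?_⟩
    have m1 := B.mm (P := X ^ i * P) (natDegree_mul_le.trans (by rw [natDegree_X_pow]; omega)) (p2.shift i)
    rw [← he, Mm_mul] at m1
    have m2 : Mm (R l) ≤ t ^ ((K : ℤ) + 1 - β) := by
      rw [zpow_sub₀ t0, le_div_iff₀ (pos _), mul_comm]
      exact (mul_le_mul_of_nonneg_right b1 (Mm_nonneg _)).trans m1
    exact (B.bd (by omega) m2).mono (pmono ht (by omega))
  have k3 := detb ξ R (fun l => (hR l).1) hd (fun l => (hx l).1) (fun l => (hx l).2.1) fun l => (hx l).2.2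
  rw [← zpow_natCast, ← zpow_mul, ← zpow_add₀ t0, ← zpow_add₀ t0] at k3
  have k4 : (((k + 2).factorial : ℕ) : ℝ) ≤ t :=
    le_trans (by exact_mod_cast Nat.factorial_le (by omega)) B.hf
  have k5 := pcmp ht ((zpow_zero t).le.trans (k3.trans (B.up k4 _)))
  have c1 : (3 * w + 1 : ℤ) ≤ k := by omega
  have c2 : (k : ℤ) + 1 ≤ n + r := by omega
  have c3 : (11 + 6 * w + (K + 2) * (n + r) : ℤ) < a + b + (K + 2) := by exact_mod_cast h3
  have c4 : (β : ℤ) * (3 * w + 1) ≤ β * k := mul_le_mul_of_nonneg_left c1 (by positivity)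
  have c5 : ((K : ℤ) + 2) * (k + 1) ≤ (K + 2) * (n + r) := mul_le_mul_of_nonneg_left c2 (by positivity)
  rw [hγ] at k5
  nlinarith

end Pool.Agent.H.MP_f13ad7_nt
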