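import Pool.Agent.H.MP_f13ad7_nt.C

set_option autoImplicit false

namespace Pool.Agent.H.MP_f13ad7_nt

open Polynomial Module
open Pool.Agent.H.MP_294a04_nt

def Hs (P : ℤ[X]) : ℝ := ((P.support.sup (fun i => (P.coeff i).natAbs) : ℕ) : ℝ)

theorem Bd_Hs (P : ℤ[X]) : Bd P (Hs P) := by
  intro i
  by_cases h : i ∈ P.support
  · have : (P.coeff i).natAbs ≤ P.support.sup (fun i => (P.coeff i).natAbs) :=
      Finset.le_sup (f := fun i => (P.coeff i).natAbs) h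
    rw [← Int.cast_abs, Int.abs_eq_natAbs, Hs]
    exact_mod_cast this
  · rw [notMem_support_iff.1 h]; simp [Hs]

theorem Hs_le {P : ℤ[X]} (h0 : P ≠ 0) {x : ℝ} (h : Bd P x) : Hs P ≤ x := by
  obtain ⟨i, -, hi⟩ := Finset.exists_mem_eq_sup P.support (nonempty_support_iff.2 h0)
    (fun i => (P.coeff i).natAbs)
  have := h i
  rw [← Int.cast_abs, Int.abs_eq_natAbs, Int.cast_natCast] at this
  unfold Hs; rw [hi]; exact this

theorem one_le_Hs {P : ℤ[X]} (h : P ≠ 0) : 1 ≤ Hs P :=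
  (one_le_abs (leadingCoeff_ne_zero.2 h)).trans (Bd_Hs P _)

def PS (ξ : ℝ) (n : ℕ) (w : ℝ) : Set ℤ[X] :=
  {P | P.natDegree ≤ n ∧ aeval ξ P ≠ 0 ∧ |aeval ξ P| ≤ Hs P ^ (-w)}

def AS (ξ : ℝ) (n : ℕ) (w : ℝ) : Set ℝ :=
  {α | ∃ Q : ℤ[X], Irreducible Q ∧ Q.natDegree ≤ n ∧ aeval α Q = 0 ∧ α ≠ ξ ∧ |ξ - α| ≤ Hs Q ^ (-w)}

theorem low {ξ w : ℝ} {n : ℕ} (hT : Transcendental ℤ ξ) (hw : 0 ≤ w) (h : (PS ξ n w).Finite) :
    ∃ T : ℝ, 1 ≤ T ∧ ∀ P : ℤ[X], P ≠ 0 → P.natDegree ≤ n → 1 ≤ T * (|aeval ξ P| * Hs P ^ w) := by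
  obtain ⟨T, hb⟩ := (h.image fun P => |aeval ξ P|⁻¹).bddAbove
  refine ⟨max 1 T, le_max_left _ _, fun P h0 hd => ?_⟩
  have v0 : aeval ξ P ≠ 0 := fun hv => hT ⟨P, h0, hv⟩
  have v1 := abs_pos.2 v0
  have h1 := one_le_Hs h0
  by_cases hP : P ∈ PS ξ n w
  · have k1 : |aeval ξ P|⁻¹ ≤ max 1 T := (hb ⟨P, hP, rfl⟩).trans (le_max_right _ _)
    rw [inv_le_iff_one_le_mul₀ v1] at k1
    rw [← mul_assoc]
    exact k1.trans (le_mul_of_one_le_right (by linarith) (Real.one_le_rpow h1 hw))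
  · have k1 : Hs P ^ (-w) ≤ |aeval ξ P| := by
      by_contra hc
      exact hP ⟨hd, v0, (not_le.1 hc).le⟩
    rw [Real.rpow_neg (by linarith), inv_le_iff_one_le_mul₀ (Real.rpow_pos_of_pos (by linarith) _)] at k1
    exact k1.trans (le_mul_of_one_le_left (by linarith) (le_max_left _ _))

theorem low2 {ξ : ℝ} {n w : ℕ} (hT : Transcendental ℤ ξ) (h : (PS ξ n w).Finite) :
    ∃ T : ℝ, ∀ t, T ≤ t → Low ξ t n w := by
  obtain ⟨T, T1, hT⟩ := low hT (Nat.cast_nonneg w) h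
  refine ⟨T, fun t ht P h0 hd β hb => ?_⟩
  have k1 := hT P h0 hd
  have t0 : 0 < t := by linarith
  have k2 : Hs P ^ (w : ℝ) ≤ t ^ (β * w) := by
    rw [Real.rpow_natCast, zpow_mul, zpow_natCast]
    exact pow_le_pow_left₀ (zero_le_one.trans (one_le_Hs h0)) (Hs_le h0 hb) _
  rw [zpow_sub₀ t0.ne', zpow_one, zpow_neg, div_le_iff₀ t0, inv_le_iff_one_le_mul₀ (zpow_pos t0 _)]
  refine k1.trans ?_
  have := one_le_Hs h0
  calc _ ≤ t * (|aeval ξ P| * t ^ (β * w)) := by gcongr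
    _ = _ := by ring

theorem upper {ξ w δ : ℝ} {n : ℕ} (hT : Transcendental ℤ ξ) (hw : 0 ≤ w) (hδ : 0 < δ)
    (h : (PS ξ n w).Finite) : (AS ξ n (w + δ + 1)).Finite := by
  obtain ⟨T, T1, hT⟩ := low hT hw h
  obtain ⟨c, hc⟩ : ∃ c : ℝ, c = (n + 1) * n * (|ξ| + 1) ^ n := ⟨_, rfl⟩
  have c0 : 0 ≤ c := by rw [hc]; positivity
  refine ((finite_mahlerMeasure_le n ((n + 1) * (T * c) ^ δ⁻¹).toNNReal).biUnion
    (t := fun Q => Q.rootSet ℝ) fun Q _ => rootSet_finite _ _).subset ?_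
  rintro α ⟨Q, hQ, hd, hr, -, hα⟩
  have h1 := one_le_Hs hQ.ne_zero
  have h0 : 0 < Hs Q := by linarith
  have a1 : |ξ - α| ≤ 1 := hα.trans (Real.rpow_le_one_of_one_le_of_nonpos h1 (by linarith))
  have k1 := MP_8ce656_nt.lip Q hd (x := ξ) (y := α) (M := |ξ| + 1) (by linarith [abs_nonneg ξ])
    (by linarith) (by have := abs_sub_abs_le_abs_sub α ξ; rw [abs_sub_comm] at this; linarith)
  rw [hr, sub_zero, ← hc] at k1
  have k2 := MP_8ce656_nt.Ht_le Q (Bd_Hs Q)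
  have k3 : |aeval ξ Q| ≤ c * Hs Q * Hs Q ^ (-(w + δ + 1)) := k1.trans (by gcongr)
  have k4 : 1 ≤ T * (c * Hs Q * Hs Q ^ (-(w + δ + 1)) * Hs Q ^ w) :=
    (hT Q hQ.ne_zero hd).trans (by gcongr)
  have e : Hs Q * Hs Q ^ (-(w + δ + 1)) * Hs Q ^ w * Hs Q ^ δ = 1 := by
    rw [← Real.rpow_one_add' h0.le (by linarith), ← Real.rpow_add h0, ← Real.rpow_add h0]
    convert Real.rpow_zero _ using 2; ring
  have k5 : Hs Q ^ δ ≤ T * c := by
    have := mul_le_mul_of_nonneg_right k4 (Real.rpow_pos_of_pos h0 δ).le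
    calc _ = 1 * Hs Q ^ δ := by ring
      _ ≤ _ := this
      _ = T * c * (Hs Q * Hs Q ^ (-(w + δ + 1)) * Hs Q ^ w * Hs Q ^ δ) := by ring
      _ = _ := by rw [e, mul_one]
  rw [← Real.le_rpow_inv_iff_of_pos h0.le (by positivity) hδ] at k5
  refine Set.mem_biUnion (x := Q) ⟨hd, ?_⟩ (mem_rootSet.2 ⟨hQ.ne_zero, hr⟩)
  exact (Mm_le hd ((Bd_Hs Q).mono k5)).trans (Real.le_coe_toNNReal _)

theorem lower {ξ : ℝ} (hT : Transcendental ℤ ξ) {N e : ℕ} (hN : 8 ≤ N) (he : 1 ≤ e)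
    (h1 : (PS ξ (N ^ 2 * e) (N ^ 2 * e + e : ℕ)).Finite) (h2 : (PS ξ (N * e) (2 * (N * e) : ℕ)).Finite)
    {W : ℝ} (hW : W + 4 * (N * e) ≤ N ^ 2 * e) : (AS ξ (N ^ 2 * e) W).Infinite := by
  intro hf
  obtain ⟨T1, hT1⟩ := low2 hT h1
  obtain ⟨T2, hT2⟩ := low2 hT h2
  obtain ⟨T3, hT3⟩ := (hf.image fun α => |ξ - α|⁻¹).bddAbove
  obtain ⟨n, hn⟩ : ∃ n, n = N ^ 2 * e := ⟨_, rfl⟩
  obtain ⟨r, hr⟩ : ∃ r, r = N * e := ⟨_, rfl⟩
  obtain ⟨L, hL⟩ : ∃ L, L = 20 * n + 20 := ⟨_, rfl⟩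
  obtain ⟨t, ht⟩ : ∃ t : ℝ, t = max (max (max T1 T2) (T3 + 1)) (max (max 4 (2 ^ (2 * n)))
    (max ((((2 * n : ℕ) : ℝ) + 1) * (|ξ| + 1) ^ (2 * n)) (2 * n + 1).factorial)) := ⟨_, rfl⟩
  have B : Big ξ (2 * n) t := by constructor <;> simp [ht]
  have L1 := hT1 t (by simp [ht])
  have L2 := hT2 t (by simp [ht])
  have t3 : T3 + 1 ≤ t := by simp [ht]
  have nr : n = N * r := by rw [hn, hr]; ring
  rw [← hn] at L1 hf hT3
  rw [← hr] at L2
  have hW' : W + 4 * r ≤ n := by rw [hn, hr]; push_cast; exact hW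
  have r1 : 8 ≤ r := by rw [hr]; nlinarith
  have r2 : 8 * r ≤ n := by rw [nr]; gcongr
  have r3 : e ≤ r := by rw [hr]; nlinarith
  obtain ⟨p, hp⟩ := Nat.exists_eq_add_of_le' (show r ≤ n by omega)
  obtain ⟨K, hK⟩ := Nat.exists_eq_add_of_le' (show 4 ≤ N ^ 2 * L by nlinarith)
  have K1 : L ≤ K + 4 := by rw [← hK]; nlinarith
  have z1 : (p : ℤ) = N * r - r := by zify at hp nr; linarith
  have z2 : (K : ℤ) = N ^ 2 * L - 4 := by zify at hK; linarith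
  have z3 : (n : ℤ) = N * r := by exact_mod_cast nr
  have z4 : (r : ℤ) = N * e := by exact_mod_cast hr
  have d := dimbig (p := p) (r := r) (K := K) (a := p * (K + 4)) (s := (N + 1) * L) B (by omega)
    (by omega) hp L1 (by
      have : (5 * n + 1 : ℤ) ≤ r * L := by zify at hL r1; nlinarith
      have : (p : ℤ) ≤ n := by omega
      zify
      have e1 : (K : ℤ) * n = p * (K + 4) + ((N + 1) * L * p + r * L) - 4 * n := by
        rw [z1, z2, z3]; ring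
      nlinarith) (by
      push_cast
      have e1 : ((K : ℤ) + 5 - (N + 1) * L) * (n + e) = p * (K + 4) + n + e - (N + 1) * L * e := by
        rw [z1, z2, z3, z4]; ring
      have : (0 : ℤ) ≤ (N + 1) * L * e := by positivity
      have : (L : ℤ) ≤ (N + 1) * L := by nlinarith
      omega)
  obtain ⟨P, ⟨p1, p2, p3⟩, p4⟩ := bigder (K := K + 4) (a := p * (K + 4)) (b := 2 * r * (K + 4)) B L2
    (by exact_mod_cast d) (by omega) (by nlinarith) (by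
      have : (K + 4 + 2) * (n + r) = p * (K + 4) + 2 * r * (K + 4) + 2 * (n + r) := by rw [hp]; ring
      omega)
  have c1 : 7 * (r * (K + 4)) ≤ p * (K + 4) := by rw [← mul_assoc]; gcongr; omega
  have c2 : 8 * (K + 4) ≤ r * (K + 4) := by gcongr
  have c3 : ((2 * r * (K + 4) : ℕ) : ℤ) = 2 * ((r * (K + 4) : ℕ) : ℤ) := by push_cast; ring
  have ht4 := B.h4
  obtain ⟨α, a1, a2⟩ := B.root (by omega) p2 p3 p4 (by omega) (by omega)
  have P0 : P ≠ 0 := by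
    rintro rfl
    have : 0 < t ^ (-((2 * r * (K + 4) : ℕ) : ℤ)) := zpow_pos (by linarith) _
    simp only [derivative_zero, map_zero, abs_zero] at p4
    linarith
  obtain ⟨Q, q1, ⟨R, rfl⟩, q3⟩ := MP_8ce656_nt.irr_factor P P0 a1
  have R0 := right_ne_zero_of_mul P0
  have dQ : Q.natDegree ≤ n := by rw [natDegree_mul q1.ne_zero R0] at p1; omega
  have m1 := B.mm (by omega) p2
  rw [Mm_mul] at m1
  have m2 := Hs_le q1.ne_zero
    (B.bd (by omega) ((le_mul_of_one_le_right (Mm_nonneg Q) (one_le_Mm R0)).trans m1))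
  have ne : α ≠ ξ := by rintro rfl; exact hT ⟨Q, q1.ne_zero, q3⟩
  have H1 := one_le_Hs q1.ne_zero
  obtain ⟨v, hv⟩ := Nat.exists_eq_add_of_le' (show 3 * r ≤ p by omega)
  have hα : α ∈ AS ξ n W := by
    refine ⟨Q, q1, dQ, q3, ne, a2.trans (le_trans ?_ (Real.rpow_le_rpow_of_exponent_le H1
      (show -(v : ℝ) ≤ -W by
        have : (n : ℝ) = v + 4 * r := by exact_mod_cast (by omega : n = v + 4 * r)
        linarith)))⟩
    rw [Real.rpow_neg (by linarith), Real.rpow_natCast]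
    refine le_trans ?_ (inv_anti₀ (by positivity) (pow_le_pow_left₀ (by linarith) m2 v))
    rw [← zpow_natCast, ← zpow_mul, ← zpow_neg]
    apply pmono ht4
    have c4 : p * (K + 4) = v * (K + 4) + 3 * (r * (K + 4)) := by rw [hv]; ring
    have c5 : (((K + 4 : ℕ) : ℤ) + 1 + 1) * v = ((v * (K + 4) : ℕ) : ℤ) + 2 * v := by push_cast; ring
    omega
  have k1 : |ξ - α|⁻¹ ≤ T3 := hT3 ⟨α, hα, rfl⟩
  have k2 := a2.trans (pmono ht4 (show _ ≤ -1 by omega))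
  rw [zpow_neg_one, le_inv_comm₀ (abs_pos.2 (sub_ne_zero.2 ne.symm)) (by linarith)] at k2
  linarith

theorem main (ξ : ℝ) (hT : Transcendental ℤ ξ)
    (h : ∀ ε : ℝ, 0 < ε → ∃ N : ℕ, ∀ n : ℕ, N ≤ n → (PS ξ n ((1 + ε) * n)).Finite) :
    (∀ ε : ℝ, 0 < ε → ∃ N : ℕ, ∀ n : ℕ, N ≤ n → (AS ξ n ((1 + ε) * n + 1)).Finite) ∧
    ∀ ε : ℝ, 0 < ε → ∀ N : ℕ, ∃ n : ℕ, N ≤ n ∧ (AS ξ n ((1 - ε) * n + 1)).Infinite := by
  constructor
  · intro ε hε
    obtain ⟨N, hN⟩ := h (ε / 2) (by positivity)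
    refine ⟨N + 1, fun n hn => ?_⟩
    have n0 : (0 : ℝ) < n := by exact_mod_cast (by omega : 0 < n)
    have := upper (δ := ε / 2 * n) hT (by positivity) (by positivity) (hN n (by omega))
    convert this using 3; ring
  · intro ε hε N0
    obtain ⟨M, hM⟩ := exists_nat_ge (5 / ε)
    obtain ⟨N, hN⟩ : ∃ N : ℕ, N = M + 8 := ⟨_, rfl⟩
    have N8 : 8 ≤ N := by omega
    have N1 : (8 : ℝ) ≤ N := by exact_mod_cast N8
    have N5 : 5 ≤ ε * N := by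
      rw [div_le_iff₀ hε] at hM
      rw [hN]; push_cast; nlinarith
    obtain ⟨N1', h1⟩ := h (1 / N ^ 2) (by positivity)
    obtain ⟨N2, h2⟩ := h 1 one_pos
    obtain ⟨e, he⟩ : ∃ e : ℕ, e = N0 + N1' + N2 + 1 := ⟨_, rfl⟩
    have e1 : e ≤ N * e := by nlinarith
    have e2 : e ≤ N ^ 2 * e := by nlinarith
    have e3 : (1 : ℝ) ≤ e := by exact_mod_cast (by omega : 1 ≤ e)
    refine ⟨N ^ 2 * e, by omega, lower hT N8 (by omega) ?_ ?_ ?_⟩
    · convert h1 (N ^ 2 * e) (by omega) using 2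
      push_cast; field_simp
    · convert h2 (N * e) (by omega) using 2
      push_cast; ring
    · push_cast
      have : 1 ≤ (N : ℝ) * e := by nlinarith
      have : 5 * ((N : ℝ) * e) ≤ ε * N * (N * e) := by gcongr
      nlinarith

end Pool.Agent.H.MP_f13ad7_nt
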